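import Pool.Agent.N998.HS.Sign

/-!
# Signs with modular Tate characters: the union of the theorems of helper992 and helper998

To the properties of `LiftSystem` (helper998) we add the property `modular` of `SignSystem`
(helper992): the line of a modular Tate character is the reduction of a polarized tensor product of
powers of the `H^1` of elliptic curves with complex multiplication; the algebraic classes on
products of elliptic curves are generated by divisors, and satisfy the standard conjecture of Hodge
type.
-/

namespace Pool.Agent.N536.FM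

open Finset Pool.Agent.H916R2 Pool.Agent.H916T Pool.Agent.H916Y Pool.Agent.N214.FT
  Pool.Agent.N992 Pool.Agent.N992.HSC Pool.Agent.N993 Pool.Agent.N993.CP Pool.Agent.N998.HS

/-- Functions with the formal properties of the signs of the intersection forms on the lines of
Tate characters. -/
structure FullSystem (p : ℕ) extends LiftSystem p where
  /-- modular Tate characters -/
  modular : ∀ m : ℕ, 0 < m → p.Coprime m → ∀ s : Multiset (ZMod m), s ≠ 0 → ModularTate p m s →
    sgn m s = 1

variable {p m : ℕ}

/-- the sign system -/
def FullSystem.toSign (S : FullSystem p) : SignSystem p where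
  sgn := S.sgn
  range := S.range
  join := S.join
  pair := S.pair
  level := S.level
  surface := S.surface
  standard := S.standard
  modular := S.modular

/-- all signs are `1` -/
theorem sgn_full (S : FullSystem p) (hp : p.Prime) (hm : 0 < m) (hpm : p.Coprime m)
    (h : SmallDegree m ∨ (Odd (orderOf (p : ZMod m)) ∧ Visible m) ∨
      ∀ q : ℕ, q.Prime → q ∣ m → q = 2 ∨ q % 4 = 3)
    {s : Multiset (ZMod m)} (hs : IsTate p m s) : S.sgn m s = 1 := by
  by_cases hne : s = 0
  · rw [hne]
    exact S.lifted m hm hpm 0 (lifted_zero m hm)
  rcases h with h | h | h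
  · exact Pool.Agent.N998.HS.sgn_good S.toLiftSystem hp hm hpm (Or.inl h) hs
  · exact Pool.Agent.N998.HS.sgn_good S.toLiftSystem hp hm hpm (Or.inr h) hs
  · exact Pool.Agent.N992.HSC.sgn_good S.toSign hp hm hpm h hs hne

/-- **The forms are positive definite.** -/
theorem positive_full [NeZero m] (S : FullSystem p) (hp : p.Prime) (hpm : p.Coprime m)
    (h : SmallDegree m ∨ (Odd (orderOf (p : ZMod m)) ∧ Visible m) ∨
      ∀ q : ℕ, q.Prime → q ∣ m → q = 2 ∨ q % 4 = 3)
    {ι : Type} [Fintype ι] [DecidableEq ι] (C : LineForm S.toLiftSystem m ι) {v : C.V}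
    (hv : v ≠ 0) : 0 < C.form v v := by
  have h1 : ∀ s : Multiset (ZMod m), IsTate p m s → S.sgn m s = 1 :=
    fun s hs => sgn_full S hp (Nat.pos_of_ne_zero (NeZero.ne m)) hpm h hs
  have hnd : ∃ a, component C.form C.act a v ≠ 0 := by
    by_contra hc
    push Not at hc
    exact hv (C.nondeg (fun a ha => by rw [h1 _ ha]; norm_num) v hc)
  have h2 := form_pos_general C.form C.act (C.act_zero v) hnd 1 (fun a ha => by
    obtain ⟨hT, r, hr, h3⟩ := C.sign v a ha
    rw [h1 _ hT] at h3
    exact ⟨r, hr, h3⟩)
  simpa using h2.2

end Pool.Agent.N536.FM
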